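import Pool.Agent.W555.GL.Stm

/-! GL-PAIR: independent pairs. -/

set_option autoImplicit false

namespace Pool.Agent.W918.GL

open Pool.Agent.W555.GL

variable {L : Type} [CompleteLattice L] {rk : L → ℕ} {r : ℕ}

theorem rk_mono (h : RkData L rk r) {x y : L} (hxy : x ≤ y) : rk x ≤ rk y := by
  rcases hxy.eq_or_lt with rfl | hlt
  · exact le_rfl
  · exact (h.mono x y hlt).le

theorem rk_sup_atom (h : RkData L rk r) (x a : L) (ha : IsAtom a) : rk (x ⊔ a) ≤ rk x + 1 := by
  by_cases hax : a ≤ x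
  · rw [sup_eq_left.2 hax]; omega
  · rw [h.atom x a ha hax]

/-- the rank grows at most as fast after joining with `u` -/
theorem rk_step (h : RkData L rk r) (u y : L) : ∀ (n : ℕ) (x : L), x ≤ y → rk y - rk x = n →
    rk (u ⊔ y) + rk x ≤ rk (u ⊔ x) + rk y := by
  intro n
  induction n with
  | zero =>
    intro x hxy hn
    rcases hxy.eq_or_lt with rfl | hlt
    · exact le_rfl
    · have := h.mono x y hlt
      omega
  | succ n ih =>
    intro x hxy hn
    have hlt : x < y := by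
      rcases hxy.eq_or_lt with rfl | hlt
      · omega
      · exact hlt
    obtain ⟨a, ha, hay, hax⟩ := h.gen x y hlt
    have h1 := h.atom x a ha hax
    have h2 := ih (x ⊔ a) (sup_le hxy hay) (by omega)
    have h3 : rk (u ⊔ (x ⊔ a)) ≤ rk (u ⊔ x) + 1 := by
      rw [← sup_assoc]
      exact rk_sup_atom h _ a ha
    omega

theorem rk_step' (h : RkData L rk r) (u : L) {x y : L} (hxy : x ≤ y) :
    rk (u ⊔ y) + rk x ≤ rk (u ⊔ x) + rk y := rk_step h u y _ x hxy rfl

theorem rk_sup_le (h : RkData L rk r) (x y : L) : rk (x ⊔ y) ≤ rk x + rk y := by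
  have := rk_step' h x (bot_le : ⊥ ≤ y)
  rw [h.bot, sup_bot_eq] at this
  omega

theorem rk_pair (h : RkData L rk r) {F Y : L} (hc : Compl rk r F Y) {G W : L} (hG : G ≤ F)
    (hW : W ≤ Y) : rk (G ⊔ W) = rk G + rk W := by
  obtain ⟨h1, h2⟩ := hc
  have h3 := rk_step' h W hG
  have h4 := rk_step' h F hW
  have h5 := rk_sup_le h G W
  rw [h1, h.top] at h4
  rw [sup_comm W F, sup_comm W G] at h3
  omega

theorem meet_eq (h : RkData L rk r) {F Y : L} (hc : Compl rk r F Y) {G W : L} (hG : G ≤ F)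
    (hW : W ≤ Y) : (G ⊔ W) ⊓ F = G := by
  have h1 : G ≤ (G ⊔ W) ⊓ F := le_inf le_sup_left hG
  have h2 := rk_pair h hc (inf_le_right : (G ⊔ W) ⊓ F ≤ F) hW
  have h3 : (G ⊔ W) ⊓ F ⊔ W = G ⊔ W :=
    le_antisymm (sup_le inf_le_left le_sup_right) (sup_le_sup_right h1 W)
  rw [h3, rk_pair h hc hG hW] at h2
  rcases h1.eq_or_lt with h4 | h4
  · exact h4.symm
  · have := h.mono _ _ h4
    omega

theorem compl_symm {F Y : L} (hc : Compl rk r F Y) : Compl rk r Y F := by
  obtain ⟨h1, h2⟩ := hc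
  exact ⟨by rw [sup_comm, h1], by omega⟩

theorem pair : StPair := by
  intro L _ rk r h F Y hc G W hG hW
  refine ⟨rk_pair h hc hG hW, meet_eq h hc hG hW, ?_⟩
  rw [sup_comm]
  exact meet_eq h (compl_symm hc) hW hG

end Pool.Agent.W918.GL
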